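import Pool.Agent.GLE.StmtsA

/-! Squad GLE, row SUM: the sum of the squares of the polynomials `P_k`. -/

set_option autoImplicit false

namespace Pool.Agent.GLE.H45

open Polynomial MeasureTheory

/-- splitting off the lowest digit -/
theorem sum_low (B M : ℕ) (f : ℕ → ℝ) :
    ∑ k ∈ Finset.range (B * M), f k =
      ∑ m ∈ Finset.range M, ∑ d ∈ Finset.range B, f (B * m + d) := by
  induction M with
  | zero => simp
  | succ M ih =>
    rw [Finset.sum_range_succ, ← ih, Nat.mul_succ, Finset.sum_range_add]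

theorem sum_digits (B : ℕ) (hB : 0 < B) (J : ℕ) : ∀ g : ℕ → ℕ → ℝ,
    ∑ k ∈ Finset.range (B ^ J), ∏ j ∈ Finset.range J, g j ((k / B ^ j) % B) =
      ∏ j ∈ Finset.range J, ∑ d ∈ Finset.range B, g j d := by
  induction J with
  | zero => intro g; simp
  | succ J ih =>
    intro g
    rw [pow_succ', sum_low, Finset.prod_range_succ', ← ih fun j => g (j + 1), Finset.sum_mul]
    refine Finset.sum_congr rfl fun m _ => ?_
    rw [Finset.mul_sum]
    refine Finset.sum_congr rfl fun d hd => ?_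
    have hd' := Finset.mem_range.1 hd
    rw [Finset.prod_range_succ']
    congr 1
    · refine Finset.prod_congr rfl fun j _ => ?_
      have h1 : (B * m + d) / B ^ (j + 1) = m / B ^ j := by
        rw [pow_succ', ← Nat.div_div_eq_div_mul, Nat.mul_add_div hB, Nat.div_eq_of_lt hd',
          add_zero]
      rw [h1]
    · rw [pow_zero, Nat.div_one, Nat.mul_add_mod, Nat.mod_eq_of_lt hd']

theorem prod_ext {B k J : ℕ} (hk : k < B ^ J) (hB : 0 < B) (F : ℕ → ℕ → ℂ) (hF : ∀ j, F j 0 = 1)
    (M : ℕ) (hM : J ≤ M) :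
    ∏ j ∈ Finset.range M, F j ((k / B ^ j) % B) =
      ∏ j ∈ Finset.range J, F j ((k / B ^ j) % B) := by
  refine (Finset.prod_subset (fun j hj => Finset.mem_range.2
    ((Finset.mem_range.1 hj).trans_le hM)) fun j _ hj => ?_).symm
  have hj' : J ≤ j := by
    by_contra h
    exact hj (Finset.mem_range.2 (by omega))
  have h1 : k / B ^ j = 0 := Nat.div_eq_of_lt (hk.trans_le (Nat.pow_le_pow_right hB hj'))
  rw [h1, Nat.zero_mod, hF]

theorem iter_av (c : ℂ) (n b : ℕ) : (fun z : ℂ => z ^ 2 + c)^[b] (av n c) = av (n + b) c := by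
  induction b with
  | zero => rfl
  | succ b ih =>
    rw [Function.iterate_succ_apply', ih]
    rfl

theorem sum_ (hEsc : EscStmt) (hFab : FabStmt) : SumStmt := by
  obtain ⟨C, hC, hfab⟩ := hFab
  refine ⟨C, hC, fun b J z hb hz => ?_⟩
  obtain ⟨F, hF⟩ : ∃ F : ℕ → ℕ → ℂ, F = fun j d => Fb z (av (1 + b * j) z) b d := ⟨_, rfl⟩
  have hF0 : ∀ j, F j 0 = 1 := by
    intro j
    rw [hF]
    show Fb z (av (1 + b * j) z) b 0 = 1
    unfold Fb
    rfl
  have hBp : 0 < 2 ^ b := by positivity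
  have hB1 : 1 < 2 ^ b := Nat.one_lt_two_pow (by omega)
  have h1 : ∀ k ∈ Finset.range ((2 ^ b) ^ J), ‖Pk b z k‖ ^ 2 =
      ∏ j ∈ Finset.range J, (fun j d => ‖F j d‖ ^ 2) j ((k / (2 ^ b) ^ j) % 2 ^ b) := by
    intro k hk
    have hk' := Finset.mem_range.1 hk
    have h2 : Pk b z k = ∏ j ∈ Finset.range (k + 1), F j ((k / (2 ^ b) ^ j) % 2 ^ b) := by
      unfold Pk
      rw [hF]
    have h3 : k < (2 ^ b) ^ (k + 1) :=
      (Nat.lt_succ_self k).trans (Nat.lt_pow_self hB1)
    have h4 := prod_ext hk' hBp F hF0 (max J (k + 1)) (le_max_left _ _)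
    have h5 := prod_ext h3 hBp F hF0 (max J (k + 1)) (le_max_right _ _)
    rw [h2, ← h5, h4, norm_prod, Finset.prod_pow]
  refine (Finset.sum_congr rfl h1).trans_le
    ((sum_digits (2 ^ b) hBp J (fun j d => ‖F j d‖ ^ 2)).trans_le ?_)
  calc ∏ j ∈ Finset.range J, ∑ d ∈ Finset.range (2 ^ b), (fun j d => ‖F j d‖ ^ 2) j d ≤
      ∏ j ∈ Finset.range J, (1 + C * b * 2 ^ b) := by
        refine Finset.prod_le_prod (fun j _ => Finset.sum_nonneg fun d _ => sq_nonneg _)
          fun j hj => ?_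
        have hj' := Finset.mem_range.1 hj
        have hb1 : b ≤ b * J := Nat.le_mul_of_pos_right b (by omega)
        have hb2 : b * (j + 1) ≤ b * J := Nat.mul_le_mul_left b hj'
        have h2 := hfab b z (av (1 + b * j) z) hb
          (fun i hi1 hi2 => hEsc.1 (1 + b * J) z hz i hi1 (by omega)) (by
            rw [iter_av]
            refine hEsc.1 (1 + b * J) z hz _ (by omega) ?_
            rw [mul_add, mul_one] at hb2
            omega)
        rw [hF]
        exact h2
    _ = (1 + C * b * 2 ^ b) ^ J := by rw [Finset.prod_const, Finset.card_range]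

end Pool.Agent.GLE.H45
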